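import Pool.Agent.Helper9.WS.Defs2
import Pool.Agent.Helper9.WS.LA
import Pool.Agent.Helper57.WS.RR

/-!
# Wild exponential sums: slopes from the scaled determinant (project WS, block WS-8b)
-/

open MvPolynomial Finset

namespace Pool.Agent.Helper9.WS

section

open scoped Polynomial

variable {L : Type} [Field L] (O : ValuationSubring L)

private theorem sl_residue_eq_zero (a : O) :
    IsLocalRing.residue O a = 0 ↔ O.valuation (a : L) < 1 := by
  rw [IsLocalRing.residue_eq_zero_iff, ValuationSubring.valuation_lt_one_iff]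

/-- an element at distance less than one from an integral element is integral, and the
residues agree -/
private theorem sl_close (a : O) (x : L) (h : O.valuation (x - (a : L)) < 1) :
    ∃ y : O, (y : L) = x ∧ IsLocalRing.residue O y = IsLocalRing.residue O a := by
  have hx : x ∈ O := by
    have h1 : x - (a : L) ∈ O := (O.valuation_le_one_iff _).mp h.le
    have h2 := O.add_mem _ _ h1 a.2
    simpa using h2
  refine ⟨⟨x, hx⟩, rfl, ?_⟩
  rw [← sub_eq_zero, ← map_sub, sl_residue_eq_zero]
  simpa using h

/-- the rescaled characteristic polynomial -/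
private theorem sl_charpolyRev_coeff {J : Type} [Fintype J] [DecidableEq J] (A : Matrix J J L)
    (t : L) (j : ℕ) :
    ((1 - (Polynomial.X : L[X]) • (Matrix.map (fun u v => A u v / t) Polynomial.C)).det).coeff j =
      A.charpolyRev.coeff j * (t⁻¹) ^ j := by
  have h1 : (1 - (Polynomial.X : L[X]) • (Matrix.map (fun u v => A u v / t) Polynomial.C)).det =
      A.charpolyRev.comp (Polynomial.C t⁻¹ * Polynomial.X) := by
    rw [Matrix.charpolyRev]
    have h2 : ∀ q : L[X], q.comp (Polynomial.C t⁻¹ * Polynomial.X) =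
      Polynomial.compRingHom (Polynomial.C t⁻¹ * Polynomial.X) q := fun q => rfl
    rw [h2, RingHom.map_det]
    congr 1
    ext1 u v
    have e : (Matrix.map (fun u v => A u v / t) Polynomial.C : Matrix J J L[X]) u v =
      Polynomial.C (A u v / t) := rfl
    simp only [RingHom.mapMatrix_apply, Matrix.map_apply, Matrix.sub_apply, Matrix.smul_apply,
      Matrix.one_apply, smul_eq_mul, map_sub, map_mul, Polynomial.coe_compRingHom_apply,
      Polynomial.X_comp, Polynomial.C_comp]
    try rw [e]
    rw [div_eq_mul_inv, Polynomial.C_mul]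
    split_ifs
    · simp
      ring
    · simp
      ring
  rw [h1, Polynomial.comp_C_mul_X_coeff]

/-- WS-8b -/
theorem slopes (ϖ : O) (hϖ0 : ϖ ≠ 0) (hϖ : IsLocalRing.residue O ϖ = 0) {J : Type} [Fintype J]
    [DecidableEq J] (w : J → ℕ) (B : Matrix J J O) (θ : ℕ)
    (hB : ∀ u v, w u = θ → w v < θ → IsLocalRing.residue O (B u v) = 0)
    (hlow : (lowBlock w θ (B.map (IsLocalRing.residue O))).det ≠ 0) {s : ℕ} (hs : 0 < s)
    {g : (IsLocalRing.ResidueField O)[X]}
    (hg : (midBlock w θ (B.map (IsLocalRing.residue O))).charpolyRev = Polynomial.expand _ s g)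
    (hgs : g.Separable) {D N : ℕ} (β : Fin D → L) (hN : s * D ≤ N)
    (hN' : (low w θ).card + s * g.natDegree ≤ N) (H : PowerSeries L)
    (hH0 : PowerSeries.coeff 0 H = 1) (hH : ∀ j, 0 < j → j ≤ N →
      O.valuation (PowerSeries.coeff j H) < O.valuation (ϖ : L) ^ (θ * j))
    (hP : ((∏ i, (1 - Polynomial.C (β i) * Polynomial.X ^ s) : L[X]) : PowerSeries L) =
      ((Matrix.charpolyRev (fun u v => (ϖ : L) ^ w u * (B u v : L)) : L[X]) : PowerSeries L) * H) :
    s * (univ.filter fun i => O.valuation (ϖ : L) ^ (θ * s) < O.valuation (β i)).card =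
      (low w θ).card ∧
    (univ.filter fun i => O.valuation (β i) = O.valuation (ϖ : L) ^ (θ * s)).card = g.natDegree ∧
    ∀ i j, O.valuation (β i) = O.valuation (ϖ : L) ^ (θ * s) → β i = β j → i = j := by
  have hπ : (ϖ : L) ≠ 0 := by simpa using hϖ0
  have hvπ : O.valuation (ϖ : L) ≠ 0 := (O.valuation.ne_zero_iff).mpr hπ
  set t : L := (ϖ : L) ^ θ with ht
  have ht0 : t ≠ 0 := pow_ne_zero _ hπ
  have hvt0 : O.valuation t ≠ 0 := (O.valuation.ne_zero_iff).mpr ht0
  have hvt : ∀ j, O.valuation (ϖ : L) ^ (θ * j) = O.valuation t ^ j := by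
    intro j
    rw [ht, map_pow, pow_mul]
  set c : L := (ϖ : L) ^ expo w θ with hc
  set A : Matrix J J L := fun u v => (ϖ : L) ^ w u * (B u v : L) with hA
  set P : L[X] := ∏ i, (1 - Polynomial.C (β i) * Polynomial.X ^ s) with hPdef
  set R0 : O[X] := (scaled w B ϖ θ).det with hR0
  set k0 : ℕ := (low w θ).card with hk0
  -- the coefficients of the scaled determinant
  have hR0c : ∀ j, ((R0.coeff j : O) : L) = c * (A.charpolyRev.coeff j * (t⁻¹) ^ j) := by
    intro j
    have h1 := map_det_scaled w B ϖ hϖ0 θ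
    have h2 := congrArg (fun q => Polynomial.coeff q j) h1
    simp only [Polynomial.coeff_map, Polynomial.coeff_C_mul] at h2
    have h3 : algebraMap O L (R0.coeff j) = ((R0.coeff j : O) : L) := rfl
    rw [← h3, h2]
    congr 1
    exact sl_charpolyRev_coeff A t j
  -- the reduction of the scaled determinant
  have hR0r := map_residue_det_scaled w B ϖ hϖ θ hB
  rw [hg, ← hR0, ← hk0] at hR0r
  set u0 : IsLocalRing.ResidueField O := (lowBlock w θ (B.map (IsLocalRing.residue O))).det with hu0
  set u : IsLocalRing.ResidueField O := u0 * (-1) ^ k0 with hu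
  have hu' : u ≠ 0 := mul_ne_zero hlow (pow_ne_zero _ (neg_ne_zero.mpr one_ne_zero))
  have hR0r' : R0.map (IsLocalRing.residue O) =
      Polynomial.C u * Polynomial.X ^ k0 * Polynomial.expand _ s g := by
    rw [hR0r, hu, neg_pow, Polynomial.C_mul, Polynomial.C_pow, Polynomial.C_neg, Polynomial.C_1]
    ring
  have hg0 : g.coeff 0 = 1 := by
    have h1 := Matrix.eval_charpolyRev (M := midBlock w θ (B.map (IsLocalRing.residue O)))
    rw [hg, ← Polynomial.coeff_zero_eq_eval_zero] at h1
    have h2 := Polynomial.coeff_expand_mul hs g 0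
    rw [zero_mul] at h2
    rw [← h2, h1]
  -- the coefficients of P
  have hPc : ∀ j, P.coeff j = ∑ x ∈ Finset.HasAntidiagonal.antidiagonal j,
      A.charpolyRev.coeff x.1 * PowerSeries.coeff x.2 H := by
    intro j
    have h1 := congrArg (PowerSeries.coeff j) hP
    rw [Polynomial.coeff_coe, PowerSeries.coeff_mul] at h1
    rw [h1]
    refine Finset.sum_congr rfl fun x _ => ?_
    rw [Polynomial.coeff_coe]
  have hclose : ∀ j, O.valuation (c * (P.coeff j * (t⁻¹) ^ j) - ((R0.coeff j : O) : L)) < 1 := by
    intro j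
    rcases le_or_gt j N with hj | hj
    · have h1 : c * (P.coeff j * (t⁻¹) ^ j) = ∑ x ∈ Finset.HasAntidiagonal.antidiagonal j,
          ((R0.coeff x.1 : O) : L) * (PowerSeries.coeff x.2 H * (t⁻¹) ^ x.2) := by
        rw [hPc, Finset.sum_mul, Finset.mul_sum]
        refine Finset.sum_congr rfl fun x hx => ?_
        rw [hR0c, ← Finset.HasAntidiagonal.mem_antidiagonal.mp hx, pow_add]
        ring
      have h2 : ((R0.coeff j : O) : L) = ((R0.coeff (j, 0).1 : O) : L) *
          (PowerSeries.coeff (j, 0).2 H * (t⁻¹) ^ (j, 0).2) := by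
        simp [hH0]
      have h3 : (j, 0) ∈ Finset.HasAntidiagonal.antidiagonal j := by simp
      rw [h1, ← Finset.add_sum_erase _ _ h3, ← h2, add_sub_cancel_left]
      refine O.valuation.map_sum_lt one_ne_zero fun x hx => ?_
      obtain ⟨hx1, hx2⟩ := Finset.mem_erase.mp hx
      have hx3 := Finset.HasAntidiagonal.mem_antidiagonal.mp hx2
      have hx4 : 0 < x.2 := by
        rcases Nat.eq_zero_or_pos x.2 with h | h
        · exfalso
          apply hx1
          ext
          · simp only
            omega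
          · exact h
        · exact h
      have h4 := hH x.2 hx4 (by omega)
      rw [hvt] at h4
      have h5 : O.valuation ((R0.coeff x.1 : O) : L) ≤ 1 :=
        (O.valuation_le_one_iff _).mpr (R0.coeff x.1).2
      have h6 : O.valuation (PowerSeries.coeff x.2 H * (t⁻¹) ^ x.2) < 1 := by
        rw [map_mul, map_pow, map_inv₀, inv_pow]
        rwa [← div_eq_mul_inv, div_lt_one₀ (pow_pos (zero_lt_iff.mpr hvt0) _)]
      rw [map_mul]
      calc O.valuation ((R0.coeff x.1 : O) : L) * O.valuation (PowerSeries.coeff x.2 H * (t⁻¹) ^ x.2)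
          ≤ 1 * O.valuation (PowerSeries.coeff x.2 H * (t⁻¹) ^ x.2) := mul_le_mul_left h5 _
        _ < 1 := by rwa [one_mul]
    · have h1 : P.coeff j = 0 := by
        apply Polynomial.coeff_eq_zero_of_natDegree_lt
        refine lt_of_le_of_lt ?_ hj
        refine le_trans ?_ hN
        refine (Polynomial.natDegree_prod_le _ _).trans ?_
        refine (Finset.sum_le_card_nsmul _ _ s fun i _ => ?_).trans ?_
        · refine (Polynomial.natDegree_sub_le _ _).trans ?_
          rw [Polynomial.natDegree_one]
          refine max_le (Nat.zero_le _) ?_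
          exact Polynomial.natDegree_C_mul_X_pow_le _ _
        · simp [mul_comm]
      rw [h1, zero_mul, mul_zero, zero_sub, Valuation.map_neg, ← sl_residue_eq_zero]
      have h2 : IsLocalRing.residue O (R0.coeff j) = (R0.map (IsLocalRing.residue O)).coeff j := by
        rw [Polynomial.coeff_map]
      rw [h2, hR0r']
      apply Polynomial.coeff_eq_zero_of_natDegree_lt
      refine lt_of_le_of_lt ?_ hj
      refine le_trans ?_ hN'
      refine Polynomial.natDegree_mul_le.trans ?_
      refine Nat.add_le_add ?_ ?_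
      · exact Polynomial.natDegree_C_mul_X_pow_le _ _
      · rw [Polynomial.natDegree_expand, mul_comm]
  -- the polynomial in X^s
  set b : Fin D → L := fun i => β i * (t⁻¹) ^ s with hb
  set Q : L[X] := Polynomial.C c * ∏ i, (1 - Polynomial.C (b i) * Polynomial.X) with hQ
  have hPQ : Polynomial.C c * P.comp (Polynomial.C t⁻¹ * Polynomial.X) = Polynomial.expand L s Q := by
    rw [hQ, map_mul, Polynomial.expand_C, map_prod, hPdef, Polynomial.prod_comp]
    congr 1
    refine Finset.prod_congr rfl fun i _ => ?_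
    simp only [Polynomial.sub_comp, Polynomial.one_comp, Polynomial.mul_comp, Polynomial.C_comp,
      Polynomial.pow_comp, Polynomial.X_comp, map_sub, map_one, map_mul, Polynomial.expand_C,
      Polynomial.expand_X, hb, mul_pow, map_pow]
    ring
  have hPt : ∀ j, c * (P.coeff j * (t⁻¹) ^ j) = (Polynomial.expand L s Q).coeff j := by
    intro j
    rw [← hPQ, Polynomial.coeff_C_mul, Polynomial.comp_C_mul_X_coeff]
  -- s divides k0
  have hdvd : s ∣ k0 := by
    by_contra hnd
    have h1 := hclose k0
    rw [hPt, Polynomial.coeff_expand hs, if_neg hnd, zero_sub, Valuation.map_neg,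
      ← sl_residue_eq_zero] at h1
    have h2 : IsLocalRing.residue O (R0.coeff k0) = (R0.map (IsLocalRing.residue O)).coeff k0 := by
      rw [Polynomial.coeff_map]
    rw [h2, hR0r', mul_assoc, Polynomial.coeff_C_mul, Polynomial.coeff_X_pow_mul'] at h1
    simp only [le_refl, if_true, Nat.sub_self] at h1
    have h3 := Polynomial.coeff_expand_mul hs g 0
    rw [zero_mul] at h3
    rw [h3, hg0, mul_one] at h1
    exact hu' h1
  obtain ⟨k, hk⟩ := hdvd
  clear_value u
  have hred : R0.map (IsLocalRing.residue O) =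
      Polynomial.expand _ s (Polynomial.C u * Polynomial.X ^ k * g) := by
    rw [hR0r', map_mul, map_mul, Polynomial.expand_C, map_pow, Polynomial.expand_X, ← pow_mul, hk]
  -- the integral polynomial
  have hlift : ∀ n, ∃ y : O, (y : L) = Q.coeff n ∧
      IsLocalRing.residue O y = (Polynomial.C u * Polynomial.X ^ k * g).coeff n := by
    intro n
    have h1 := hclose (n * s)
    rw [hPt, Polynomial.coeff_expand_mul hs] at h1
    obtain ⟨y, hy1, hy2⟩ := sl_close O _ _ h1
    refine ⟨y, hy1, ?_⟩
    rw [hy2]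
    have h2 : IsLocalRing.residue O (R0.coeff (n * s)) =
        (R0.map (IsLocalRing.residue O)).coeff (n * s) := by
      rw [Polynomial.coeff_map]
    rw [h2, hred, Polynomial.coeff_expand_mul hs]
  have hmem : Q ∈ Polynomial.lifts (algebraMap O L) := by
    rw [Polynomial.lifts_iff_coeff_lifts]
    intro n
    obtain ⟨y, hy1, _⟩ := hlift n
    exact ⟨y, hy1⟩
  obtain ⟨R, hR⟩ := (Polynomial.mem_lifts _).mp hmem
  have hRr : R.map (IsLocalRing.residue O) = Polynomial.C u * Polynomial.X ^ k * g := by
    ext n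
    rw [Polynomial.coeff_map]
    obtain ⟨y, hy1, hy2⟩ := hlift n
    rw [← hy2]
    congr 1
    apply Subtype.ext
    rw [hy1, ← hR, Polynomial.coeff_map]
    rfl
  obtain ⟨e1, e2, e3⟩ := roots_resid O b hR hu' hRr hg0 hgs
  have hvb : ∀ i, O.valuation (b i) = O.valuation (β i) / O.valuation t ^ s := by
    intro i
    rw [hb]
    simp only [map_mul, map_pow, map_inv₀]
    rw [inv_pow, div_eq_mul_inv]
  have hpos : 0 < O.valuation t ^ s := pow_pos (zero_lt_iff.mpr hvt0) _
  have f1 : ∀ i, 1 < O.valuation (b i) ↔ O.valuation (ϖ : L) ^ (θ * s) < O.valuation (β i) := by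
    intro i
    rw [hvb, hvt, one_lt_div₀ hpos]
  have f2 : ∀ i, O.valuation (b i) = 1 ↔ O.valuation (β i) = O.valuation (ϖ : L) ^ (θ * s) := by
    intro i
    rw [hvb, hvt, div_eq_one_iff_eq hpos.ne']
  refine ⟨?_, ?_, ?_⟩
  · simp only [f1] at e1
    rw [e1, hk]
  · simp only [f2] at e2
    exact e2
  · intro i j hi hij
    refine e3 i j ((f2 i).mpr hi) ?_
    rw [hb]
    simp only
    rw [hij]

end

end Pool.Agent.Helper9.WS
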