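import Pool.Agent.Helper9.WS.LA
import Pool.Agent.Helper57.WS.RR

/-!
# Wild exponential sums: comparison in the middle slope (project WS, block WS-33)
-/

open MvPolynomial Finset

namespace Pool.Agent.Helper9.WS

section

open scoped Polynomial

variable {L : Type} [Field L] (O : ValuationSubring L)

private theorem sm_residue_eq_zero (a : O) :
    IsLocalRing.residue O a = 0 ↔ O.valuation (a : L) < 1 := by
  rw [IsLocalRing.residue_eq_zero_iff, ValuationSubring.valuation_lt_one_iff]

private theorem sm_residue_eq (a b : O) :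
    IsLocalRing.residue O a = IsLocalRing.residue O b ↔ O.valuation ((a : L) - (b : L)) < 1 := by
  rw [← sub_eq_zero, ← map_sub, sm_residue_eq_zero]
  rfl

/-- the rescaled characteristic polynomial -/
private theorem sm_charpolyRev {J : Type} [Fintype J] [DecidableEq J] (A : Matrix J J L) (t : L) :
    (1 - (Polynomial.X : L[X]) • (Matrix.map (fun u v => A u v / t) Polynomial.C)).det =
      A.charpolyRev.comp (Polynomial.C t⁻¹ * Polynomial.X) := by
  rw [Matrix.charpolyRev]
  have h2 : ∀ q : L[X], q.comp (Polynomial.C t⁻¹ * Polynomial.X) =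
    Polynomial.compRingHom (Polynomial.C t⁻¹ * Polynomial.X) q := fun q => rfl
  rw [h2, RingHom.map_det]
  congr 1
  ext1 u v
  have e : (Matrix.map (fun u v => A u v / t) Polynomial.C : Matrix J J L[X]) u v =
    Polynomial.C (A u v / t) := rfl
  simp only [RingHom.mapMatrix_apply, Matrix.map_apply, Matrix.sub_apply, Matrix.smul_apply,
    Matrix.one_apply, smul_eq_mul, map_sub, map_mul, Polynomial.coe_compRingHom_apply,
    Polynomial.X_comp, Polynomial.C_comp]
  try rw [e]
  rw [div_eq_mul_inv, Polynomial.C_mul]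
  split_ifs
  · simp
    ring
  · simp
    ring

/-- the end of the argument -/
private theorem sm_end {t c : L} (ht : t ≠ 0) {s : ℕ} (hs : 0 < s) {D : ℕ} (β : Fin D → L) {S : O[X]}
    (hS : S.map (algebraMap O L) = Polynomial.C c *
      (∏ i, (1 - Polynomial.C (β i) * Polynomial.X ^ s) : L[X]).comp (Polynomial.C t⁻¹ * Polynomial.X))
    {u : IsLocalRing.ResidueField O} (hu : u ≠ 0) {k0 : ℕ} {g : (IsLocalRing.ResidueField O)[X]}
    (hSr : S.map (IsLocalRing.residue O) =
      Polynomial.C u * Polynomial.X ^ k0 * Polynomial.expand _ s g) (hg0 : g.coeff 0 = 1)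
    (hgs : g.Separable) :
    s * (univ.filter fun i => O.valuation t ^ s < O.valuation (β i)).card = k0 ∧
    (univ.filter fun i => O.valuation (β i) = O.valuation t ^ s).card = g.natDegree ∧
    ∀ i j, O.valuation (β i) = O.valuation t ^ s → β i = β j → i = j := by
  have hvt0 : O.valuation t ≠ 0 := (O.valuation.ne_zero_iff).mpr ht
  set b : Fin D → L := fun i => β i * (t⁻¹) ^ s with hb
  set Q : L[X] := Polynomial.C c * ∏ i, (1 - Polynomial.C (b i) * Polynomial.X) with hQ
  have hPQ : S.map (algebraMap O L) = Polynomial.expand L s Q := by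
    rw [hS, hQ, map_mul, Polynomial.expand_C, map_prod, Polynomial.prod_comp]
    congr 1
    refine Finset.prod_congr rfl fun i _ => ?_
    simp only [Polynomial.sub_comp, Polynomial.one_comp, Polynomial.mul_comp, Polynomial.C_comp,
      Polynomial.pow_comp, Polynomial.X_comp, map_sub, map_one, map_mul, Polynomial.expand_C,
      Polynomial.expand_X, hb, mul_pow, map_pow]
    ring
  -- s divides k0
  have hdvd : s ∣ k0 := by
    by_contra hnd
    have h1 : (S.map (algebraMap O L)).coeff k0 = 0 := by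
      rw [hPQ, Polynomial.coeff_expand hs, if_neg hnd]
    rw [Polynomial.coeff_map] at h1
    have h2 : S.coeff k0 = 0 := Subtype.ext h1
    have h3 : (S.map (IsLocalRing.residue O)).coeff k0 = 0 := by
      rw [Polynomial.coeff_map, h2, map_zero]
    rw [hSr, mul_assoc, Polynomial.coeff_C_mul, Polynomial.coeff_X_pow_mul'] at h3
    simp only [le_refl, if_true, Nat.sub_self] at h3
    have h4 := Polynomial.coeff_expand_mul hs g 0
    rw [zero_mul] at h4
    rw [h4, hg0, mul_one] at h3
    exact hu h3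
  obtain ⟨k, hk⟩ := hdvd
  have hred : S.map (IsLocalRing.residue O) =
      Polynomial.expand _ s (Polynomial.C u * Polynomial.X ^ k * g) := by
    rw [hSr, map_mul, map_mul, Polynomial.expand_C, map_pow, Polynomial.expand_X, ← pow_mul, hk]
  obtain ⟨R, hR⟩ : ∃ R, R = Polynomial.contract s S := ⟨_, rfl⟩
  have hRm : R.map (algebraMap O L) = Q := by
    ext n
    have h1 := congrArg (fun q => Polynomial.coeff q (n * s)) hPQ
    simp only [Polynomial.coeff_map, Polynomial.coeff_expand_mul hs] at h1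
    rw [Polynomial.coeff_map, hR, Polynomial.coeff_contract hs.ne', h1]
  have hRr : R.map (IsLocalRing.residue O) = Polynomial.C u * Polynomial.X ^ k * g := by
    ext n
    have h1 := congrArg (fun q => Polynomial.coeff q (n * s)) hred
    simp only [Polynomial.coeff_map, Polynomial.coeff_expand_mul hs] at h1
    rw [Polynomial.coeff_map, hR, Polynomial.coeff_contract hs.ne', h1]
  obtain ⟨e1, e2, e3⟩ := roots_resid O b hRm hu hRr hg0 hgs
  have hvb : ∀ i, O.valuation (b i) = O.valuation (β i) / O.valuation t ^ s := by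
    intro i
    rw [hb]
    simp only [map_mul, map_pow, map_inv₀]
    rw [inv_pow, div_eq_mul_inv]
  have hpos : 0 < O.valuation t ^ s := pow_pos (zero_lt_iff.mpr hvt0) _
  have f1 : ∀ i, 1 < O.valuation (b i) ↔ O.valuation t ^ s < O.valuation (β i) := by
    intro i
    rw [hvb, one_lt_div₀ hpos]
  have f2 : ∀ i, O.valuation (b i) = 1 ↔ O.valuation (β i) = O.valuation t ^ s := by
    intro i
    rw [hvb, div_eq_one_iff_eq hpos.ne']
  refine ⟨?_, ?_, ?_⟩
  · simp only [f1] at e1
    rw [e1, hk]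
  · simp only [f2] at e2
    exact e2
  · intro i j hi hij
    refine e3 i j ((f2 i).mpr hi) ?_
    rw [hb]
    simp only
    rw [hij]

/-- a product of linear factors with pairwise different nonzero coefficients -/
private theorem sm_sep {K : Type*} [Field K] {D : ℕ} (a : Fin D → K) (h0 : ∀ i, a i ≠ 0)
    (hinj : ∀ i j, a i = a j → i = j) :
    (∏ i, (1 - Polynomial.C (a i) * Polynomial.X) : K[X]).Separable := by
  refine Polynomial.separable_prod ?_ ?_
  · intro i j hij
    have hne : a i - a j ≠ 0 := fun h => hij (hinj i j (sub_eq_zero.mp h))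
    refine ⟨Polynomial.C (-(a j) * (a i - a j)⁻¹), Polynomial.C (a i * (a i - a j)⁻¹), ?_⟩
    have h1 : Polynomial.C (-(a j) * (a i - a j)⁻¹) * (1 - Polynomial.C (a i) * Polynomial.X) +
        Polynomial.C (a i * (a i - a j)⁻¹) * (1 - Polynomial.C (a j) * Polynomial.X) =
        Polynomial.C ((a i - a j) * (a i - a j)⁻¹) := by
      simp only [map_mul, map_neg, map_sub]
      ring
    rw [h1, mul_inv_cancel₀ hne, Polynomial.C_1]
  · intro i
    refine ⟨0, -Polynomial.C (a i)⁻¹, ?_⟩
    have h1 : Polynomial.derivative (1 - Polynomial.C (a i) * Polynomial.X) = -Polynomial.C (a i) := by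
      simp
    rw [h1, zero_mul, zero_add, neg_mul_neg, ← Polynomial.C_mul, inv_mul_cancel₀ (h0 i), Polynomial.C_1]

theorem slopes_mid (ϖ : O) (hϖ0 : ϖ ≠ 0) (hϖ : IsLocalRing.residue O ϖ = 0) {J J' : Type}
    [Fintype J] [DecidableEq J] [Fintype J'] [DecidableEq J'] (w : J → ℕ) (B : Matrix J J O)
    (w' : J' → ℕ) (B' : Matrix J' J' O) (θ : ℕ)
    (hB : ∀ u v, w u = θ → w v < θ → IsLocalRing.residue O (B u v) = 0)
    (hlow : (lowBlock w θ (B.map (IsLocalRing.residue O))).det ≠ 0) (hw' : ∀ u, θ ≤ w' u)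
    (hmid : (midBlock w θ (B.map (IsLocalRing.residue O))).charpolyRev =
      (midBlock w' θ (B'.map (IsLocalRing.residue O))).charpolyRev) {s : ℕ} (hs : 0 < s)
    {D D' N : ℕ} (β : Fin D → L) (c : Fin D' → L)
    (hc : ∀ i, O.valuation (c i) = O.valuation (ϖ : L) ^ (θ * s))
    (hcc : ∀ i j, O.valuation (c i - c j) < O.valuation (ϖ : L) ^ (θ * s) → i = j)
    (hN : s * D ≤ N) (hN' : (low w θ).card + s * D' ≤ N) (H : PowerSeries L)
    (hH0 : PowerSeries.coeff 0 H = 1) (hH : ∀ j, 0 < j → j ≤ N →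
      O.valuation (PowerSeries.coeff j H) < O.valuation (ϖ : L) ^ (θ * j))
    (hP : ((∏ i, (1 - Polynomial.C (β i) * Polynomial.X ^ s) : L[X]) : PowerSeries L) *
      ((Matrix.charpolyRev (fun u v => (ϖ : L) ^ w' u * (B' u v : L)) : L[X]) : PowerSeries L) =
      ((Matrix.charpolyRev (fun u v => (ϖ : L) ^ w u * (B u v : L)) : L[X]) : PowerSeries L) *
      ((∏ i, (1 - Polynomial.C (c i) * Polynomial.X ^ s) : L[X]) : PowerSeries L) * H) :
    s * (univ.filter fun i => O.valuation (ϖ : L) ^ (θ * s) < O.valuation (β i)).card =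
      (low w θ).card ∧
    ∀ i j, O.valuation (β i) = O.valuation (ϖ : L) ^ (θ * s) → β i = β j → i = j := by
  have hπ : (ϖ : L) ≠ 0 := by simpa using hϖ0
  obtain ⟨t, ht⟩ : ∃ t : L, t = (ϖ : L) ^ θ := ⟨_, rfl⟩
  have ht0 : t ≠ 0 := by rw [ht]; exact pow_ne_zero _ hπ
  have hvt0 : O.valuation t ≠ 0 := (O.valuation.ne_zero_iff).mpr ht0
  have hvt : ∀ j, O.valuation (ϖ : L) ^ (θ * j) = O.valuation t ^ j := by
    intro j
    rw [ht, map_pow, pow_mul]
  rw [hvt] at hc
  simp only [hvt] at hc hcc hH ⊢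
  obtain ⟨c0, hc0⟩ : ∃ c0 : L, c0 = (ϖ : L) ^ expo w θ := ⟨_, rfl⟩
  obtain ⟨A, hA⟩ : ∃ A : Matrix J J L, A = fun u v => (ϖ : L) ^ w u * (B u v : L) := ⟨_, rfl⟩
  obtain ⟨A', hA'⟩ : ∃ A' : Matrix J' J' L, A' = fun u v => (ϖ : L) ^ w' u * (B' u v : L) := ⟨_, rfl⟩
  rw [← hA, ← hA'] at hP
  obtain ⟨P, hPdef⟩ : ∃ P : L[X], P = ∏ i, (1 - Polynomial.C (β i) * Polynomial.X ^ s) := ⟨_, rfl⟩
  rw [← hPdef] at hP
  obtain ⟨Pc, hPc⟩ : ∃ P : L[X], P = ∏ i, (1 - Polynomial.C (c i) * Polynomial.X ^ s) := ⟨_, rfl⟩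
  rw [← hPc] at hP
  obtain ⟨R0, hR0⟩ : ∃ R0 : O[X], R0 = (scaled w B ϖ θ).det := ⟨_, rfl⟩
  obtain ⟨R1, hR1⟩ : ∃ R1 : O[X], R1 = (scaled w' B' ϖ θ).det := ⟨_, rfl⟩
  obtain ⟨k0, hk0⟩ : ∃ k0, k0 = (low w θ).card := ⟨_, rfl⟩
  rw [← hk0] at hN' ⊢
  obtain ⟨Y, hY⟩ : ∃ Y : L[X], Y = Polynomial.C t⁻¹ * Polynomial.X := ⟨_, rfl⟩
  -- the scaled determinants
  have hR0m : R0.map (algebraMap O L) = Polynomial.C c0 * A.charpolyRev.comp Y := by
    rw [hR0, map_det_scaled w B ϖ hϖ0 θ, ← hc0, hY, ← sm_charpolyRev A t, hA, ht]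
  have hlow' : low w' θ = ∅ := by
    unfold low
    rw [Finset.filter_eq_empty_iff]
    intro u _
    exact not_lt.mpr (hw' u)
  have hR1m : R1.map (algebraMap O L) = A'.charpolyRev.comp Y := by
    rw [hR1, map_det_scaled w' B' ϖ hϖ0 θ, expo, hlow', Finset.sum_empty, pow_zero, Polynomial.C_1, one_mul,
      hY, ← sm_charpolyRev A' t, hA', ht]
  obtain ⟨Rm, hRm⟩ : ∃ Rm : (IsLocalRing.ResidueField O)[X],
    Rm = (midBlock w θ (B.map (IsLocalRing.residue O))).charpolyRev := ⟨_, rfl⟩
  have hR0r := map_residue_det_scaled w B ϖ hϖ θ hB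
  rw [← hR0, ← hk0, ← hRm] at hR0r
  have hR1r : R1.map (IsLocalRing.residue O) = Rm := by
    have h1 := map_residue_det_scaled w' B' ϖ hϖ θ
      (fun u v _ h => absurd h (not_lt.mpr (hw' v)))
    have : IsEmpty {u // w' u < θ} := ⟨fun u => absurd u.2 (not_lt.mpr (hw' u))⟩
    have hdet : (lowBlock w' θ (B'.map (IsLocalRing.residue O))).det = 1 := Matrix.det_isEmpty
    rw [hdet, hlow', Finset.card_empty, pow_zero, Polynomial.C_1, one_mul, one_mul, ← hmid,
      ← hRm, ← hR1] at h1
    exact h1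
  obtain ⟨u, hu⟩ : ∃ u : IsLocalRing.ResidueField O,
    u = (lowBlock w θ (B.map (IsLocalRing.residue O))).det * (-1) ^ k0 := ⟨_, rfl⟩
  have hu' : u ≠ 0 := by
    rw [hu]
    exact mul_ne_zero hlow (pow_ne_zero _ (neg_ne_zero.mpr one_ne_zero))
  have hR0r' : R0.map (IsLocalRing.residue O) = Polynomial.C u * Polynomial.X ^ k0 * Rm := by
    rw [hR0r, hu, neg_pow, Polynomial.C_mul, Polynomial.C_pow, Polynomial.C_neg, Polynomial.C_1]
    ring
  have hRm0 : Rm.coeff 0 = 1 := by
    have h1 := Matrix.eval_charpolyRev (M := midBlock w θ (B.map (IsLocalRing.residue O)))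
    rw [← Polynomial.coeff_zero_eq_eval_zero] at h1
    rw [hRm, h1]
  -- the comparison roots
  have hγ : ∀ i, ∃ y : O, (y : L) = c i * (t⁻¹) ^ s := by
    intro i
    refine ⟨⟨c i * (t⁻¹) ^ s, ?_⟩, rfl⟩
    rw [← O.valuation_le_one_iff, map_mul, hc, map_pow, map_inv₀, inv_pow, mul_inv_cancel₀ (pow_ne_zero _ hvt0)]
  choose y hy using hγ
  have hy0 : ∀ i, IsLocalRing.residue O (y i) ≠ 0 := by
    intro i h
    rw [sm_residue_eq_zero, hy, map_mul, hc, map_pow, map_inv₀, inv_pow,
      mul_inv_cancel₀ (pow_ne_zero _ hvt0)] at h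
    exact lt_irrefl _ h
  have hyy : ∀ i j, IsLocalRing.residue O (y i) = IsLocalRing.residue O (y j) → i = j := by
    intro i j h
    apply hcc
    rw [sm_residue_eq, hy, hy, ← sub_mul, map_mul, map_pow, map_inv₀, inv_pow, ← div_eq_mul_inv,
      div_lt_one₀ (pow_pos (zero_lt_iff.mpr hvt0) _)] at h
    exact h
  obtain ⟨g, hg⟩ : ∃ g : (IsLocalRing.ResidueField O)[X],
    g = ∏ i, (1 - Polynomial.C (IsLocalRing.residue O (y i)) * Polynomial.X) := ⟨_, rfl⟩
  have hgs : g.Separable := by
    rw [hg]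
    exact sm_sep _ hy0 hyy
  have hg0 : g.coeff 0 = 1 := by
    rw [Polynomial.coeff_zero_eq_eval_zero, hg, Polynomial.eval_prod]
    simp
  obtain ⟨Qo, hQo⟩ : ∃ Qo : O[X], Qo = ∏ i, (1 - Polynomial.C (y i) * Polynomial.X ^ s) := ⟨_, rfl⟩
  have hQom : Qo.map (algebraMap O L) = Pc.comp Y := by
    rw [hQo, hPc, Polynomial.map_prod, Polynomial.prod_comp]
    refine Finset.prod_congr rfl fun i _ => ?_
    have h1 : algebraMap O L (y i) = c i * (t⁻¹) ^ s := hy i
    simp only [hY, Polynomial.sub_comp, Polynomial.one_comp, Polynomial.mul_comp, Polynomial.C_comp,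
      Polynomial.pow_comp, Polynomial.X_comp, Polynomial.map_sub, Polynomial.map_one, Polynomial.map_mul,
      Polynomial.map_C, Polynomial.map_pow, Polynomial.map_X, h1, mul_pow, map_mul, map_pow]
    ring
  have hQor : Qo.map (IsLocalRing.residue O) = Polynomial.expand _ s g := by
    rw [hQo, hg, Polynomial.map_prod, map_prod]
    refine Finset.prod_congr rfl fun i _ => ?_
    simp only [Polynomial.map_sub, Polynomial.map_one, Polynomial.map_mul,
      Polynomial.map_C, Polynomial.map_pow, Polynomial.map_X, map_sub, map_one, map_mul, Polynomial.expand_C,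
      Polynomial.expand_X]
  -- coefficients
  obtain ⟨Pt, hPt⟩ : ∃ Pt : L[X], Pt = Polynomial.C c0 * P.comp Y := ⟨_, rfl⟩
  have hrel : ∀ j, ∑ x ∈ Finset.HasAntidiagonal.antidiagonal j, Pt.coeff x.1 * ((R1.coeff x.2 : O) : L) =
      ∑ x ∈ Finset.HasAntidiagonal.antidiagonal j,
        (((R0 * Qo).coeff x.1 : O) : L) * (PowerSeries.coeff x.2 H * (t⁻¹) ^ x.2) := by
    intro j
    have h1 := congrArg (PowerSeries.coeff j) hP
    rw [PowerSeries.coeff_mul, PowerSeries.coeff_mul, ← Polynomial.coe_mul] at h1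
    have h2 : ∀ a, ((R1.coeff a : O) : L) = A'.charpolyRev.coeff a * (t⁻¹) ^ a := by
      intro a
      have h3 : ((R1.coeff a : O) : L) = (R1.map (algebraMap O L)).coeff a := by
        rw [Polynomial.coeff_map]; rfl
      rw [h3, hR1m, hY, Polynomial.comp_C_mul_X_coeff]
    have h4 : ∀ a, (((R0 * Qo).coeff a : O) : L) = c0 * ((A.charpolyRev * Pc).coeff a * (t⁻¹) ^ a) := by
      intro a
      have h3 : (((R0 * Qo).coeff a : O) : L) = ((R0 * Qo).map (algebraMap O L)).coeff a := by
        rw [Polynomial.coeff_map]; rfl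
      rw [h3, Polynomial.map_mul, hR0m, hQom, mul_assoc, ← Polynomial.mul_comp, Polynomial.coeff_C_mul, hY,
        Polynomial.comp_C_mul_X_coeff]
    have h5 : ∀ a, Pt.coeff a = c0 * (P.coeff a * (t⁻¹) ^ a) := by
      intro a
      rw [hPt, Polynomial.coeff_C_mul, hY, Polynomial.comp_C_mul_X_coeff]
    have h6 : ∑ x ∈ Finset.HasAntidiagonal.antidiagonal j, Pt.coeff x.1 * ((R1.coeff x.2 : O) : L) =
        c0 * (t⁻¹) ^ j * ∑ x ∈ Finset.HasAntidiagonal.antidiagonal j,
          PowerSeries.coeff x.1 (P : PowerSeries L) * PowerSeries.coeff x.2 (A'.charpolyRev : PowerSeries L) := by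
      rw [Finset.mul_sum]
      refine Finset.sum_congr rfl fun x hx => ?_
      rw [h5, h2, Polynomial.coeff_coe, Polynomial.coeff_coe, ← Finset.HasAntidiagonal.mem_antidiagonal.mp hx,
        pow_add]
      ring
    rw [h6, h1, Finset.mul_sum]
    refine Finset.sum_congr rfl fun x hx => ?_
    rw [h4, Polynomial.coeff_coe, ← Finset.HasAntidiagonal.mem_antidiagonal.mp hx, pow_add]
    ring
  have hclose : ∀ j, j ≤ N → O.valuation (∑ x ∈ Finset.HasAntidiagonal.antidiagonal j,
      Pt.coeff x.1 * ((R1.coeff x.2 : O) : L) - (((R0 * Qo).coeff j : O) : L)) < 1 := by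
    intro j hj
    have h2 : (((R0 * Qo).coeff j : O) : L) = (((R0 * Qo).coeff (j, 0).1 : O) : L) *
        (PowerSeries.coeff (j, 0).2 H * (t⁻¹) ^ (j, 0).2) := by
      simp [hH0]
    have h3 : (j, 0) ∈ Finset.HasAntidiagonal.antidiagonal j := by simp
    rw [hrel, ← Finset.add_sum_erase _ _ h3, ← h2, add_sub_cancel_left]
    refine O.valuation.map_sum_lt one_ne_zero fun x hx => ?_
    obtain ⟨hx1, hx2⟩ := Finset.mem_erase.mp hx
    have hx3 := Finset.HasAntidiagonal.mem_antidiagonal.mp hx2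
    have hx4 : 0 < x.2 := by
      rcases Nat.eq_zero_or_pos x.2 with h | h
      · exfalso
        apply hx1
        ext
        · simp only
          omega
        · exact h
      · exact h
    have h4 := hH x.2 hx4 (by omega)
    have h5 : O.valuation (((R0 * Qo).coeff x.1 : O) : L) ≤ 1 :=
      (O.valuation_le_one_iff _).mpr ((R0 * Qo).coeff x.1).2
    have h6 : O.valuation (PowerSeries.coeff x.2 H * (t⁻¹) ^ x.2) < 1 := by
      rw [map_mul, map_pow, map_inv₀, inv_pow]
      rwa [← div_eq_mul_inv, div_lt_one₀ (pow_pos (zero_lt_iff.mpr hvt0) _)]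
    rw [map_mul]
    calc O.valuation (((R0 * Qo).coeff x.1 : O) : L) * O.valuation (PowerSeries.coeff x.2 H * (t⁻¹) ^ x.2)
        ≤ 1 * O.valuation (PowerSeries.coeff x.2 H * (t⁻¹) ^ x.2) := mul_le_mul_left h5 _
      _ < 1 := by rwa [one_mul]
  have hR10 : ((R1.coeff 0 : O) : L) = 1 := by
    have h3 : ((R1.coeff 0 : O) : L) = (R1.map (algebraMap O L)).coeff 0 := by
      rw [Polynomial.coeff_map]; rfl
    have h1 := Matrix.eval_charpolyRev (M := A')
    rw [← Polynomial.coeff_zero_eq_eval_zero] at h1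
    rw [h3, hR1m, hY, Polynomial.comp_C_mul_X_coeff, h1, pow_zero, one_mul]
  have hPdeg : P.natDegree ≤ s * D := by
    rw [hPdef]
    refine (Polynomial.natDegree_prod_le _ _).trans ?_
    refine (Finset.sum_le_card_nsmul _ _ s fun i _ => ?_).trans ?_
    · refine (Polynomial.natDegree_sub_le _ _).trans ?_
      rw [Polynomial.natDegree_one]
      refine max_le (Nat.zero_le _) ?_
      exact Polynomial.natDegree_C_mul_X_pow_le _ _
    · simp [mul_comm]
  have hPt0 : ∀ j, N < j → Pt.coeff j = 0 := by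
    intro j hj
    rw [hPt, Polynomial.coeff_C_mul, hY, Polynomial.comp_C_mul_X_coeff,
      Polynomial.coeff_eq_zero_of_natDegree_lt (by omega), zero_mul, mul_zero]
  -- integrality
  have hint : ∀ j, O.valuation (Pt.coeff j) ≤ 1 := by
    intro j
    induction j using Nat.strong_induction_on with
    | _ j ih =>
      rcases le_or_gt j N with hj | hj
      · have h1 := hclose j hj
        have h3 : (j, 0) ∈ Finset.HasAntidiagonal.antidiagonal j := by simp
        rw [← Finset.add_sum_erase _ _ h3, hR10, mul_one] at h1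
        have h2 : Pt.coeff j = (Pt.coeff (j, 0).1 + ∑ x ∈ (Finset.HasAntidiagonal.antidiagonal j).erase (j, 0),
            Pt.coeff x.1 * ((R1.coeff x.2 : O) : L) - (((R0 * Qo).coeff j : O) : L)) +
            (((R0 * Qo).coeff j : O) : L) - ∑ x ∈ (Finset.HasAntidiagonal.antidiagonal j).erase (j, 0),
            Pt.coeff x.1 * ((R1.coeff x.2 : O) : L) := by ring
        rw [h2]
        refine (O.valuation.map_sub _ _).trans (max_le ?_ ?_)
        · refine (O.valuation.map_add _ _).trans (max_le h1.le ?_)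
          exact (O.valuation_le_one_iff _).mpr ((R0 * Qo).coeff j).2
        · refine O.valuation.map_sum_le fun x hx => ?_
          obtain ⟨hx1, hx2⟩ := Finset.mem_erase.mp hx
          have hx3 := Finset.HasAntidiagonal.mem_antidiagonal.mp hx2
          have hx4 : x.1 < j := by
            rcases Nat.eq_zero_or_pos x.2 with h | h
            · exfalso
              apply hx1
              ext
              · simp only
                omega
              · exact h
            · omega
          rw [map_mul]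
          exact mul_le_one' (ih x.1 hx4) ((O.valuation_le_one_iff _).mpr (R1.coeff x.2).2)
      · rw [hPt0 j hj, map_zero]
        exact zero_le_one
  have hmem : Pt ∈ Polynomial.lifts (algebraMap O L) := by
    rw [Polynomial.lifts_iff_coeff_lifts]
    intro n
    exact ⟨⟨Pt.coeff n, (O.valuation_le_one_iff _).mp (hint n)⟩, rfl⟩
  obtain ⟨S, hS⟩ := (Polynomial.mem_lifts _).mp hmem
  have hSc : ∀ a, Pt.coeff a = ((S.coeff a : O) : L) := by
    intro a
    rw [← hS, Polynomial.coeff_map]
    rfl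
  -- the residue
  obtain ⟨Δ, hΔ⟩ : ∃ Δ : (IsLocalRing.ResidueField O)[X], Δ = S.map (IsLocalRing.residue O) -
    Polynomial.C u * Polynomial.X ^ k0 * Polynomial.expand _ s g := ⟨_, rfl⟩
  have hΔc : ∀ j, j ≤ N → (Δ * Rm).coeff j = 0 := by
    intro j hj
    have h1 := hclose j hj
    have h2 : ∑ x ∈ Finset.HasAntidiagonal.antidiagonal j, Pt.coeff x.1 * ((R1.coeff x.2 : O) : L) =
        (((S * R1).coeff j : O) : L) := by
      rw [Polynomial.coeff_mul]
      push_cast
      exact Finset.sum_congr rfl fun x _ => by rw [hSc]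
    rw [h2, ← sm_residue_eq] at h1
    have h3 : (Δ * Rm) = (S * R1).map (IsLocalRing.residue O) - (R0 * Qo).map (IsLocalRing.residue O) := by
      rw [Polynomial.map_mul, Polynomial.map_mul, hR1r, hR0r', hQor, hΔ]
      ring
    rw [h3, Polynomial.coeff_sub, Polynomial.coeff_map, Polynomial.coeff_map, h1, sub_self]
  have hgdeg : g.natDegree ≤ D' := by
    rw [hg]
    refine (Polynomial.natDegree_prod_le _ _).trans ?_
    refine (Finset.sum_le_card_nsmul _ _ 1 fun i _ => ?_).trans ?_
    · refine (Polynomial.natDegree_sub_le _ _).trans ?_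
      rw [Polynomial.natDegree_one]
      refine max_le (Nat.zero_le _) ?_
      have := Polynomial.natDegree_C_mul_X_pow_le (IsLocalRing.residue O (y i)) 1
      rwa [pow_one] at this
    · simp
  have hΔdeg : Δ.natDegree ≤ N := by
    rw [hΔ]
    refine (Polynomial.natDegree_sub_le _ _).trans (max_le ?_ ?_)
    · rw [Polynomial.natDegree_le_iff_coeff_eq_zero]
      intro j hj
      have h1 : S.coeff j = 0 := by
        apply Subtype.ext
        rw [← hSc, hPt0 j hj]
        rfl
      rw [Polynomial.coeff_map, h1, map_zero]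
    · refine Polynomial.natDegree_mul_le.trans ?_
      have h1 : (Polynomial.C u * Polynomial.X ^ k0).natDegree ≤ k0 := Polynomial.natDegree_C_mul_X_pow_le _ _
      have h2 : (Polynomial.expand (IsLocalRing.ResidueField O) s g).natDegree ≤ s * D' := by
        rw [Polynomial.natDegree_expand, mul_comm]
        exact Nat.mul_le_mul_left _ hgdeg
      omega
  have hΔ0 : Δ = 0 := by
    by_contra hne
    have h1 := hΔc Δ.natTrailingDegree (Polynomial.natTrailingDegree_le_natDegree Δ |>.trans hΔdeg)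
    have h2 : Rm.natTrailingDegree = 0 := by
      apply Polynomial.natTrailingDegree_eq_zero.mpr
      right
      rw [hRm0]
      exact one_ne_zero
    have h3 := Polynomial.coeff_mul_natTrailingDegree_add_natTrailingDegree (p := Δ) (q := Rm)
    rw [h2, add_zero, h1] at h3
    have h4 : Rm.trailingCoeff = 1 := by
      unfold Polynomial.trailingCoeff
      rw [h2, hRm0]
    rw [h4, mul_one] at h3
    exact hne (Polynomial.trailingCoeff_eq_zero.mp h3.symm)
  have hSr : S.map (IsLocalRing.residue O) = Polynomial.C u * Polynomial.X ^ k0 * Polynomial.expand _ s g := by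
    rw [hΔ] at hΔ0
    exact sub_eq_zero.mp hΔ0
  obtain ⟨e1, -, e3⟩ := sm_end O ht0 hs β (S := S) (c := c0) (by rw [hS, hPt, hPdef, hY]) hu' hSr hg0 hgs
  exact ⟨e1, e3⟩

end

end Pool.Agent.Helper9.WS
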